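import Pool.Agent.W306.SP.Defs

/-! SP-UNION: union bound for subsets of random points in the flat torus. -/

set_option autoImplicit false

namespace Pool.Agent.W15.SP

open MeasureTheory Pool.Agent.W306.SP

/-- the unit cube -/
def cube (d : ℕ) : Set (Fin d → ℝ) := Set.univ.pi fun _ => Set.Ico (0 : ℝ) 1

theorem cube_meas (d : ℕ) : MeasurableSet (cube d) :=
  MeasurableSet.univ_pi fun _ => measurableSet_Ico

theorem cube_vol (d : ℕ) : volume (cube d) = 1 := by
  unfold cube
  rw [volume_pi_pi]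
  simp

/-- the uniform measure on the cube -/
noncomputable def nu (d : ℕ) : Measure (Fin d → ℝ) := volume.restrict (cube d)

instance (d : ℕ) : IsProbabilityMeasure (nu d) :=
  ⟨by rw [nu, Measure.restrict_apply_univ, cube_vol]⟩

theorem pi_nu (d m : ℕ) (A : Set (Fin m → Fin d → ℝ)) :
    volume {x : Fin m → Fin d → ℝ | (∀ i k, 0 ≤ x i k ∧ x i k < 1) ∧ x ∈ A}
      = (Measure.pi fun _ : Fin m => nu d) A := by
  have h1 : (Measure.pi fun _ : Fin m => nu d)
      = (volume : Measure (Fin m → Fin d → ℝ)).restrict (Set.univ.pi fun _ => cube d) := by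
    rw [volume_pi, Measure.restrict_pi_pi]
    rfl
  rw [h1, Measure.restrict_apply' (MeasurableSet.univ_pi fun _ => cube_meas d)]
  congr 1
  ext x
  simp only [Set.mem_ofPred_eq, Set.mem_inter_iff, Set.mem_univ_pi, cube, Set.mem_Ico]
  exact and_comm

/-- restriction of coordinates preserves the product measure -/
theorem map_comp (d m M : ℕ) (e : Fin M → Fin m) (he : Function.Injective e) :
    (Measure.pi fun _ : Fin m => nu d).map (fun x => fun i => x (e i))
      = Measure.pi fun _ : Fin M => nu d := by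
  classical
  have hmeas : Measurable (fun (x : Fin m → Fin d → ℝ) => fun i => x (e i)) :=
    measurable_pi_iff.2 fun i => measurable_pi_apply (e i)
  symm
  refine Measure.pi_eq fun s hs => ?_
  rw [Measure.map_apply hmeas (MeasurableSet.univ_pi hs)]
  set t : Fin m → Set (Fin d → ℝ) := fun j => if h : ∃ i, e i = j then s h.choose else Set.univ
    with ht
  have hte : ∀ i, t (e i) = s i := by
    intro i
    have h : ∃ i', e i' = e i := ⟨i, rfl⟩
    simp only [ht, h, dif_pos]
    rw [he h.choose_spec]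
  have hpre : (fun (x : Fin m → Fin d → ℝ) => fun i => x (e i)) ⁻¹' (Set.univ.pi s)
      = Set.univ.pi t := by
    ext x
    simp only [Set.mem_preimage, Set.mem_univ_pi]
    constructor
    · intro h j
      by_cases hj : ∃ i, e i = j
      · obtain ⟨i, rfl⟩ := hj
        rw [hte]; exact h i
      · simp [ht, hj]
    · intro h i
      rw [← hte]; exact h (e i)
  rw [hpre, Measure.pi_pi]
  rw [← Finset.prod_subset (Finset.subset_univ (Finset.univ.image e))]
  · rw [Finset.prod_image fun a _ b _ hab => he hab]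
    exact Finset.prod_congr rfl fun i _ => by rw [hte]
  · intro j _ hj
    have hj' : ¬ ∃ i, e i = j := by simpa using hj
    simp [ht, hj']

theorem union : S_UNION := by
  intro d m M r hd hr
  have h1 : volume {x : Fin m → Fin d → ℝ | (∀ i k, 0 ≤ x i k ∧ x i k < 1) ∧
      ∃ J : Finset (Fin m), J.card = M ∧ ∀ i ∈ J, ∀ j ∈ J, i ≠ j → r ^ 2 ≤ tsq (x i) (x j)}
      ≤ (m.choose M : ℕ) * volume (Sep d M r) := by
    have e1 := pi_nu d m {x | ∃ J : Finset (Fin m), J.card = M ∧
      ∀ i ∈ J, ∀ j ∈ J, i ≠ j → r ^ 2 ≤ tsq (x i) (x j)}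
    have e2 := pi_nu d M {x | ∀ i j, i ≠ j → r ^ 2 ≤ tsq (x i) (x j)}
    simp only [Set.mem_ofPred_eq] at e1 e2
    have e3 : volume (Sep d M r) = (Measure.pi fun _ : Fin M => nu d)
      {x | ∀ i j, i ≠ j → r ^ 2 ≤ tsq (x i) (x j)} := e2
    rw [e1, e3]
    have hcov : {x : Fin m → Fin d → ℝ | ∃ J : Finset (Fin m), J.card = M ∧
        ∀ i ∈ J, ∀ j ∈ J, i ≠ j → r ^ 2 ≤ tsq (x i) (x j)}
        ⊆ ⋃ J ∈ Finset.powersetCard M (Finset.univ : Finset (Fin m)),
          {x | ∀ i ∈ J, ∀ j ∈ J, i ≠ j → r ^ 2 ≤ tsq (x i) (x j)} := by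
      rintro x ⟨J, hJ, hx⟩
      simp only [Set.mem_iUnion]
      exact ⟨J, Finset.mem_powersetCard.2 ⟨Finset.subset_univ _, hJ⟩, hx⟩
    refine (measure_mono hcov).trans ?_
    refine (measure_biUnion_finset_le _ _).trans ?_
    have hone : ∀ J ∈ Finset.powersetCard M (Finset.univ : Finset (Fin m)),
        (Measure.pi fun _ : Fin m => nu d)
          {x | ∀ i ∈ J, ∀ j ∈ J, i ≠ j → r ^ 2 ≤ tsq (x i) (x j)}
        ≤ (Measure.pi fun _ : Fin M => nu d)
          {x | ∀ i j, i ≠ j → r ^ 2 ≤ tsq (x i) (x j)} := by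
      intro J hJ
      have hcard : J.card = M := (Finset.mem_powersetCard.1 hJ).2
      set e := J.orderEmbOfFin hcard with he
      rw [← map_comp d m M e e.injective]
      refine le_trans (measure_mono ?_) (Measure.le_map_apply
        (measurable_pi_iff.2 fun i => measurable_pi_apply (e i)).aemeasurable _)
      intro x hx i j hij
      exact hx (e i) (J.orderEmbOfFin_mem hcard i) (e j) (J.orderEmbOfFin_mem hcard j)
        (fun h => hij (e.injective h))
    refine (Finset.sum_le_sum hone).trans ?_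
    rw [Finset.sum_const, Finset.card_powersetCard, Finset.card_univ, Fintype.card_fin,
      nsmul_eq_mul]
  have hfin : volume (Sep d M r) ≠ ⊤ := by
    have e2 := pi_nu d M {x | ∀ i j, i ≠ j → r ^ 2 ≤ tsq (x i) (x j)}
    simp only [Set.mem_ofPred_eq] at e2
    have e3 : volume (Sep d M r) = (Measure.pi fun _ : Fin M => nu d)
      {x | ∀ i j, i ≠ j → r ^ 2 ≤ tsq (x i) (x j)} := e2
    rw [e3]
    exact measure_ne_top _ _
  have h2 := ENNReal.toReal_mono (ENNReal.mul_ne_top (ENNReal.natCast_ne_top _) hfin) h1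
  rw [ENNReal.toReal_mul, ENNReal.toReal_natCast] at h2
  exact h2

end Pool.Agent.W15.SP
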